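import Mathlib
import Pool.Agent.L5helper53.AI.Main

/-!
# Quotients of Dedekind zeta functions at all points: involutions in alternating groups, symmetric
groups and groups of rank one

`Pool.Agent.H541R3.ART.ArtinData G s₀` is a family of functions with the formal properties of the
Artin L-functions of a Galois extension `E/K` with group `G` near a point `s₀ ≠ 1`: functions
`L χ` for the irreducible characters `χ` of `G`, meromorphic and not identically zero near `s₀`
(Brauer), and `Lin H ψ` for the linear characters `ψ` of the subgroups `H`, without pole at `s₀`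
(Artin reciprocity and Hecke), such that `Lin H ψ` is the product of the `L χ ^ ⟨χ|_H, ψ⟩`
(induction). In particular `Lin H 1` stands for the Dedekind zeta function of the fixed field of
`H`.

`Pool.Agent.H922.Suz θ`, for an automorphism `θ` of a finite field `F` with more than two elements
such that `θ (θ x) = x ^ 2`, is the Suzuki group `Sz(q)`, `q = |F|`, defined as the group of the
permutations of the Tits ovoid in the projective space of dimension three over `F` which are
induced by linear bijections of `F ^ 4`.

The proof for the alternating groups shows more: if `n ≥ 12` and `t ∈ A_n` is an involution with at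
least two fixed points then a positive multiple of `Ind_{⟨t⟩}^{S_n} 1 - 1 - sgn` is a sum of
monomial characters of `S_n` (characters induced from linear characters of subgroups). In terms of
symmetric functions: let `h, e` be the complete and elementary symmetric functions of degree two,
`H = h ∘ h`, and let `E_m` be the coefficients of the even factor of the `2`-part of the series of complete symmetric
functions, so that `E_m - h_{2m}` is a sum of monomial characters. With `ρ_m = p₁² E_{m-1} - E_m` one has
`ρ_m + ωρ_m = ∑ ρ_i ωρ_{m-i}` and `ρ_{2l+1} ≥ e H^l`; this gives the step `k → k + 2` for the number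
`k` of transpositions of `t`, starting from explicit decompositions in the degrees 12 and 14.
-/

set_option autoImplicit false

namespace Pool.Agent.Results.MP_9fc8a5_nt.Involutions

open Pool.Agent.H541R3.ART

/-- `U` is a subgroup of order at most two of a group `P` isomorphic to one of the following groups:
* a symmetric group `S_n`, `n` arbitrary;
* an alternating group `A_n` with `n ≥ 12`, and every element of `U` fixes at least two of the `n`
  points;
* `PGL₂(q)`, for any prime power `q`, even or odd;
* `PSL₂(q)`, where `3` is not a square in `F_q` (that is `q ≡ 5, 7 mod 12`), or where `q` is a power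
  of three and `-1` is not a square in `F_q` (that is `q = 3 ^ m`, `m` odd);
* the Suzuki group `Sz(q)`, `q = 2 ^ (2 m + 1) > 2`. -/
def Pair (P : Type) [Group P] (U : Subgroup P) : Prop :=
  Nat.card U ≤ 2 ∧
  ((∃ n : ℕ, Nonempty (P ≃* Equiv.Perm (Fin n))) ∨
    (∃ n : ℕ, 12 ≤ n ∧ ∃ e : P ≃* alternatingGroup (Fin n),
      ∀ u ∈ U, (e u : Equiv.Perm (Fin n)).support.card + 2 ≤ n) ∨
    (∃ (F : Type) (_ : Field F) (_ : Finite F),
      Nonempty (P ≃* Matrix.ProjGenLinGroup (Fin 2) F)) ∨
    (∃ (F : Type) (_ : Field F) (_ : Finite F),
      (¬ IsSquare (3 : F) ∨ ((3 : F) = 0 ∧ ¬ IsSquare (-1 : F))) ∧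
      Nonempty (P ≃* Matrix.ProjectiveSpecialLinearGroup (Fin 2) F)) ∨
    (∃ (F : Type) (_ : Field F) (θ : F ≃+* F), (∀ x, θ (θ x) = x ^ 2) ∧ 2 < Nat.card F ∧
      Nonempty (P ≃* Pool.Agent.H922.Suz θ)))

/-- Let `G` be the Galois group of `E/K`, let `N ≤ M₀ ≤ M` be subgroups of `G`, `N` normal in `M₀`
and `M₀` subnormal in `M` (for example `M₀ = M`, or `M₀` normal in `M`). Suppose that there is a
surjection `π` with solvable kernel from `M₀ / N = Gal(E^N / E^{M₀})` onto a product of finitely
many groups `P_j`. Let `V` be a subgroup with `N ≤ V ≤ M₀`, with images `U_j` in the groups `P_j`,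
such that `Pair (P_j) (U_j)` holds for all `j`: the groups `P_j` are symmetric, alternating,
`PGL₂(q)`, `PSL₂(q)` or `Sz(q)` and the `U_j` have order at most two, with the conditions stated in
`Pair`. Then for all points `s₀`, all functions with the formal properties of the Artin L-functions
of `E/K` near `s₀`, and all linear characters `ρ` of `M`, the order at `s₀` of the L-function of `ρ`
over `E^M` is at most the order of the L-function of `ρ|_V` over `E^V`; for `ρ = 1`: the quotient
`ζ_{E^V} / ζ_{E^M}` has no pole at `s₀`. The zeros may have any order.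

Example: `Gal(E/K) = A_n`, `n ≥ 12`, and `L` the fixed field of any involution of `A_n` with at least
two fixed points. -/
theorem result
    (G : Type) [Group G] [Finite G] (M M₀ N : Subgroup G) (hM : M₀ ≤ M)
    (hsub : (M₀.subgroupOf M).IsSubnormal) [(N.subgroupOf M₀).Normal]
    (r : ℕ) (P : Fin r → Type) [∀ j, Group (P j)]
    (π : (M₀ ⧸ N.subgroupOf M₀) →* ∀ j, P j) (hπ : Function.Surjective π)
    (hs : Group.IsSolvable π.ker) (V : Subgroup G) (hNV : N ≤ V) (hVM : V ≤ M₀)
    (hV : ∀ j, Pair (P j) ((V.subgroupOf M₀).map
      ((Pi.evalMonoidHom P j).comp (π.comp (QuotientGroup.mk' (N.subgroupOf M₀))))))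
    (s₀ : ℂ) (A : ArtinData G s₀) (ρ : M →* ℂˣ) :
    meromorphicOrderAt (A.Lin M ρ) s₀
      ≤ meromorphicOrderAt (A.Lin V (ρ.comp (Subgroup.inclusion (hVM.trans hM)))) s₀ := by
  have hV' : ∀ j, Pool.Agent.L5helper53.AI.Pair (P j) ((V.subgroupOf M₀).map
      ((Pi.evalMonoidHom P j).comp (π.comp (QuotientGroup.mk' (N.subgroupOf M₀))))) := hV
  have : ∀ j, Finite (P j) := fun j => (hV' j).finite
  exact Pool.Agent.L5helper53.AI.main M M₀ N hM hsub r P π hπ hs V hNV hVM _ (fun j => rfl)
    (fun j => (hV j).1) (fun j => (hV' j).dm) s₀ A ρ

end Pool.Agent.Results.MP_9fc8a5_nt.Involutions
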