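import Mathlib
import Pool.Agent.L5helper71.DT.Main

/-!
# Quotients of Dedekind zeta functions at all points: subgroups of order three of `PGL₂(q)`

`Pool.Agent.H541R3.ART.ArtinData G s₀` is a family of functions with the formal properties of the
Artin L-functions of a Galois extension `E/K` with group `G` near a point `s₀ ≠ 1`: functions
`L χ` for the irreducible characters `χ` of `G`, meromorphic and not identically zero near `s₀`
(Brauer), and `Lin H ψ` for the linear characters `ψ` of the subgroups `H`, without pole at `s₀`
(Artin reciprocity and Hecke), such that `Lin H ψ` is the product of the `L χ ^ ⟨χ|_H, ψ⟩`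
(induction). In particular `Lin H 1` stands for the Dedekind zeta function of the fixed field of
`H`.

The proof uses, for a Heilbronn function of `PGL₂(q)`, the centralizers of the involutions of both
kinds (cyclic groups of order `q ± 1`), which contain elements of order three or four, the
characters of their normalizers, and the sign character of the subgroups `S₄`; in characteristic
two and three it uses the point stabilizers and the tori.
-/

set_option autoImplicit false

namespace Pool.Agent.Results.MP_9fc8a5_nt.OrderThreeSubgroups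

open Pool.Agent.H541R3.ART

/-- Let `G` be the Galois group of `E/K`, let `N ≤ M₀ ≤ M` be subgroups of `G`, `N` normal in `M₀`
and `M₀` subnormal in `M` (for example `M₀ = M`, or `M₀` normal in `M`). Suppose that there is a
surjection `π` with solvable kernel from `M₀ / N = Gal(E^N / E^{M₀})` onto a product of finitely
many groups `P_j`, each of which is isomorphic to one of the following groups:
* `PGL₂(F)`, `F` a finite field such that `3` is not a square in `F` (that is
  `|F| ≡ ± 5 mod 12`), or `3 = 0` in `F` and `|F| > 3`, or `2 = 0` in `F` and `F` has no primitive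
  cube root of unity (that is `|F| = 2 ^ m`, `m` odd);
* `PSL₂(F)`, `F` a finite field such that `3` is not a square and `2` is a square in `F` (that is
  `|F| ≡ 7, 17 mod 24`), or `3 = 0` in `F`, `-1` is not a square in `F` and `|F| > 3` (that is
  `|F| = 3 ^ m`, `m > 1` odd).

Let `V` be a subgroup with `N ≤ V ≤ M₀` whose image in every `P_j` has order at most three. Then for
all points `s₀`, all functions with the formal properties of the Artin L-functions of `E/K` near
`s₀`, and all linear characters `ρ` of `M`, the order at `s₀` of the L-function of `ρ` over `E^M`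
is at most the order of the L-function of `ρ|_V` over `E^V`; for `ρ = 1`: the quotient
`ζ_{E^V} / ζ_{E^M}` has no pole at `s₀`. The zeros may have any order.

Examples: `Gal(E/K) = PGL₂(q)`, `PΓL₂(q)` or `GL₂(q)`, for `q > 3` odd and `q ≢ ± 1 mod 12`, and `L`
the fixed field of a subgroup of `PGL₂(q)` of order three, or of a subgroup of `GL₂(q)` containing
the scalar matrices with index three. -/
theorem result
    (G : Type) [Group G] [Finite G] (M M₀ N : Subgroup G) (hM : M₀ ≤ M)
    (hsub : (M₀.subgroupOf M).IsSubnormal) [(N.subgroupOf M₀).Normal]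
    (r : ℕ) (P : Fin r → Type) [∀ j, Group (P j)]
    (hP : ∀ j, (∃ (F : Type) (_ : Field F) (_ : Finite F),
        (¬ IsSquare (3 : F) ∨ ((3 : F) = 0 ∧ 3 < Nat.card F) ∨
          ((2 : F) = 0 ∧ ∀ a : F, a ^ 2 + a + 1 ≠ 0)) ∧
        Nonempty (P j ≃* Matrix.ProjGenLinGroup (Fin 2) F)) ∨
      (∃ (F : Type) (_ : Field F) (_ : Finite F),
        ((¬ IsSquare (3 : F) ∧ IsSquare (2 : F)) ∨
          ((3 : F) = 0 ∧ ¬ IsSquare (-1 : F) ∧ 3 < Nat.card F)) ∧
        Nonempty (P j ≃* Matrix.ProjectiveSpecialLinearGroup (Fin 2) F)))
    (π : (M₀ ⧸ N.subgroupOf M₀) →* ∀ j, P j) (hπ : Function.Surjective π)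
    (hs : Group.IsSolvable π.ker) (V : Subgroup G) (hNV : N ≤ V) (hVM : V ≤ M₀)
    (hV : ∀ j, Nat.card ((V.subgroupOf M₀).map
      ((Pi.evalMonoidHom P j).comp (π.comp (QuotientGroup.mk' (N.subgroupOf M₀))))) ≤ 3)
    (s₀ : ℂ) (A : ArtinData G s₀) (ρ : M →* ℂˣ) :
    meromorphicOrderAt (A.Lin M ρ) s₀
      ≤ meromorphicOrderAt (A.Lin V (ρ.comp (Subgroup.inclusion (hVM.trans hM)))) s₀ :=
  Pool.Agent.L5helper71.DT.main M M₀ N hM hsub r P hP π hπ hs V hNV hVM hV s₀ A ρ

end Pool.Agent.Results.MP_9fc8a5_nt.OrderThreeSubgroups
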