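import Mathlib
import Pool.Agent.L5helper92.RO.Final

/-!
# Quotients of Dedekind zeta functions: few new zeros, and large alternating composition factors

`Pool.Agent.H541R3.ART.ArtinData G s₀` is a family of functions with the formal properties of the
Artin L-functions of a Galois extension `E/K` with group `G` near a point `s₀ ≠ 1`: functions
`L χ` for the irreducible characters `χ` of `G`, meromorphic and not identically zero near `s₀`
(Brauer), and `Lin H ψ` for the linear characters `ψ` of the subgroups `H`, without pole at `s₀`
(Artin reciprocity and Hecke), such that `Lin H ψ` is the product of the `L χ ^ ⟨χ|_H, ψ⟩`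
(induction). In particular `Lin H 1` stands for the Dedekind zeta function of the fixed field of
`H`, and `Lin H ψ` for a Hecke L-function of this field.

The condition is on the difference of two orders, not on the orders themselves, which may be
arbitrarily large. (The results `LargeAlternatingFactors`, `LargeRankLayers`, ... of the starting
library bound the order of the zeta function of the top field.)

Proof. For a Heilbronn function `θ` on `A_n` which is not constant, consider an even permutation
`g` with a cycle `c` of even length `2 b > n / 2`. The even products `w` of the `b` transpositions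
`(x, c^b x)` form a group `E` normalized by `g`, and all `g w` are conjugate to `g` in `A_n`; hence
`Re θ(g)` is at most the multiplicity of the trivial character in `θ|_E`, which is at most
`θ(1) - b`, because the nontrivial constituents of `θ|_E` have at least `b` conjugates under the
permutations of the `b` transpositions (these are induced by even permutations). The proportion
of these `g` is `1 / (2 b)`, and the mean of `θ(1) - Re θ(g)` over `A_n` is more than `d` if
`8 (d + 1) ≤ n` (`Pool.Agent.L5helper92.RO.rel_alt`). The case of arbitrary composition factors
follows by induction along a chief series (`Pool.Agent.L5helper92.RO.main_mono`).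
-/

set_option autoImplicit false

namespace Pool.Agent.Results.MP_9fc8a5_nt.RelativeOrder

open Pool.Agent.H541R3.ART

/-- Let `G` be the Galois group of `E/K`, let `N ≤ M` be subgroups of `G`, `N` normal in `M`, so
that `M / N` is the Galois group of `E^N / E^M`. Suppose that every composition factor of `M / N` (every
simple quotient `Y / Z` of a subnormal subgroup `Y` of `M / N`) is commutative, or isomorphic to the
alternating group `A_n` for some `n ≥ 8 (d + 1)`, or isomorphic to `SL₂(F)` for a finite field `F` of
characteristic two with more than `2 d` elements.

Let `s₀` be a point at which the zeta function of `E^N` has at most `d` zeros more than the zeta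
function of `E^M`; more generally, let `ρ` be a linear character of `M` such that the order at `s₀` of
the L-function of `ρ|_N` over `E^N` is at most `d` plus the order of the L-function of `ρ` over `E^M`.

Then for every field `E^V` between `E^M` and `E^N` the order at `s₀` of the L-function of `ρ` over
`E^M` is at most the order of the L-function of `ρ|_V` over `E^V`; for `ρ = 1`: the quotient
`ζ_{E^V} / ζ_{E^M}` has no pole at `s₀`. If `M / N` has no commutative composition factor, then the
two orders are equal. -/
theorem result
    (G : Type) [Group G] [Finite G] (M N : Subgroup G) (hNM : N ≤ M)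
    [(N.subgroupOf M).Normal] (d : ℕ)
    (hF : ∀ Y : Subgroup (M ⧸ N.subgroupOf M), Y.IsSubnormal → ∀ (Z : Subgroup Y) (_ : Z.Normal),
      IsSimpleGroup (Y ⧸ Z) → (∀ a b : Y ⧸ Z, a * b = b * a) ∨
        (∃ n : ℕ, 8 * (d + 1) ≤ n ∧ Nonempty ((Y ⧸ Z) ≃* alternatingGroup (Fin n))) ∨
        ∃ (F : Type) (_ : Field F) (_ : Finite F) (_ : CharP F 2),
          2 * d < Nat.card F ∧ Nonempty ((Y ⧸ Z) ≃* Matrix.SpecialLinearGroup (Fin 2) F))
    (s₀ : ℂ) (A : ArtinData G s₀) (ρ : M →* ℂˣ)
    (hd : meromorphicOrderAt (A.Lin N (ρ.comp (Subgroup.inclusion hNM))) s₀
      ≤ meromorphicOrderAt (A.Lin M ρ) s₀ + (d : WithTop ℤ))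
    (V : Subgroup G) (hNV : N ≤ V) (hVM : V ≤ M) :
    meromorphicOrderAt (A.Lin M ρ) s₀
        ≤ meromorphicOrderAt (A.Lin V (ρ.comp (Subgroup.inclusion hVM))) s₀ ∧
      ((∀ Y : Subgroup (M ⧸ N.subgroupOf M), Y.IsSubnormal → ∀ (Z : Subgroup Y) (_ : Z.Normal),
        IsSimpleGroup (Y ⧸ Z) → ∃ a b : Y ⧸ Z, a * b ≠ b * a) →
      meromorphicOrderAt (A.Lin V (ρ.comp (Subgroup.inclusion hVM))) s₀
        = meromorphicOrderAt (A.Lin M ρ) s₀) :=
  Pool.Agent.L5helper92.RO.main G M N hNM d hF s₀ A ρ hd V hNV hVM

end Pool.Agent.Results.MP_9fc8a5_nt.RelativeOrder
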