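import Mathlib
import Pool.Agent.L5helper53.AE.Main

/-!
# Quotients of Dedekind zeta functions at all points: subgroups of bounded support of large
alternating and symmetric groups

`Pool.Agent.H541R3.ART.ArtinData G s₀` is a family of functions with the formal properties of the
Artin L-functions of a Galois extension `E/K` with group `G` near a point `s₀ ≠ 1`: functions
`L χ` for the irreducible characters `χ` of `G`, meromorphic and not identically zero near `s₀`
(Brauer), and `Lin H ψ` for the linear characters `ψ` of the subgroups `H`, without pole at `s₀`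
(Artin reciprocity and Hecke), such that `Lin H ψ` is the product of the `L χ ^ ⟨χ|_H, ψ⟩`
(induction). In particular `Lin H 1` stands for the Dedekind zeta function of the fixed field of
`H`.

`Equiv.Perm.viaEmbeddingHom e`, for `e : Ω ↪ Fin n`, lets the permutations of `Ω` act on the image
of `e` and fixes the other points.

The proof: a Heilbronn function `θ` on `S_n` is compared with its restrictions to groups generated
by disjoint transpositions. The average of `θ` over all even permutations is bounded by averages of
values at involutions, through the decompositions of the permutations into two involutions; for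
`n → ∞` only those characters of `(Z/2)^r` contribute substantially which are nearly trivial or
nearly the sign. On the other side the average over `U` is bounded below by values at involutions:
near these two characters through the inequality `θ(x) + θ(y) ≤ θ(1) + θ(xy)` for involutions, and
elsewhere through the action of `U` on the characters of the normalized group `A`. Alternating
groups are treated by inducing Heilbronn functions.
-/

set_option autoImplicit false

namespace Pool.Agent.Results.MP_9fc8a5_nt.ThickSubgroups

open Pool.Agent.H541R3.ART Pool.Agent.L5helper53.AE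

/-- `U` consists of even permutations of `Ω`, and
(a) `u² = 1` for all `u ∈ U`; or
(b) `U` permutes by conjugation the elements of a set `T` of pairwise disjoint transpositions, and
`T` has a subset `B` such that only the element `1` of `U` maps `B` into itself (for example two
copies of the regular representation of any finite group: `T` consists of the transpositions of
the corresponding points of the two copies, `B` is one of them); or
(c) `U` normalizes an elementary abelian `2`-group `A` of permutations of `Ω` which has a subgroup
`S` of index at most two such that every element of `U` which maps `S` into itself lies in `S`, and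
`∑_{a ∈ S} y ^ c(a) > ∑_{a ∈ A \ S} y ^ c(a)` for all real `y` with `-1 < y < 1`, where `c(a)` is the
number of transpositions in `a` (for example a cycle of length `3`, normalizing a four group acting
on four points, or of length `2 ^ d - 1`, permuting the translations of a vector space of order
`2 ^ d`).

Here (a) and (b) are special cases of (c), see `thick_of_sq` and `thick_transpositions`. -/
def Allowed {Ω : Type} [Fintype Ω] [DecidableEq Ω] (U : Subgroup (Equiv.Perm Ω)) : Prop :=
  (∀ u ∈ U, Equiv.Perm.sign u = 1) ∧
  ((∀ u ∈ U, u * u = 1) ∨
    (∃ T B : Finset (Equiv.Perm Ω), B ⊆ T ∧ (∀ t ∈ T, t.IsSwap) ∧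
      (∀ t ∈ T, ∀ t' ∈ T, t ≠ t' → t.Disjoint t') ∧ (∀ u ∈ U, ∀ t ∈ T, u * t * u⁻¹ ∈ T) ∧
      ∀ u ∈ U, (∀ t ∈ B, u * t * u⁻¹ ∈ B) → u = 1) ∨
    ∃ A S : Subgroup (Equiv.Perm Ω), S ≤ A ∧ S.relIndex A ≤ 2 ∧ (∀ a ∈ A, a * a = 1) ∧
      (∀ u ∈ U, ∀ a ∈ A, u * a * u⁻¹ ∈ A) ∧
      (∀ u ∈ U, (∀ a ∈ S, u * a * u⁻¹ ∈ S) → u ∈ S) ∧
      ∀ y : ℝ, -1 < y → y < 1 →
        0 < 2 * ∑ᶠ a : S, y ^ ((a : Equiv.Perm Ω).support.card / 2)
          - ∑ᶠ a : A, y ^ ((a : Equiv.Perm Ω).support.card / 2))

lemma Allowed.thick {Ω : Type} [Fintype Ω] [DecidableEq Ω] {U : Subgroup (Equiv.Perm Ω)}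
    (h : Allowed U) : Thick U := by
  obtain ⟨hev, h | ⟨T, B, hB, hT, hd, hU, hst⟩ | h⟩ := h
  · exact thick_of_sq h hev
  · exact thick_transpositions U hev T B hB hT hd hU hst
  · exact ⟨hev, h⟩

/-- For subgroups `X` of `Γ` and `W` of `P`: there is a surjection `π` with solvable kernel from `Γ`
onto `P`, such that `W` is generated by the image of `X` and by a solvable normal subgroup `K` of `W`.
So the image of `X` is contained in `W`; one can take `K = 1` if `X` maps onto `W`; if `W` is solvable
then one can take `K = W`, and `X` may have any image in `W`. -/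
def Over {Γ P : Type} [Group Γ] [Group P] (X : Subgroup Γ) (W : Subgroup P) : Prop :=
  ∃ (π : Γ →* P) (K : Subgroup P), Function.Surjective π ∧ Group.IsSolvable π.ker ∧ K ≤ W ∧
    (K.subgroupOf W).Normal ∧ Group.IsSolvable K ∧ X.map π ⊔ K = W

/-- `Over X W` holds for the product `W` of the images of allowed groups `U_j` of permutations of `Ω`
in the product of finitely many groups `Q_j`, each an alternating or symmetric group of degree
`n_j ≥ N₀`; here `U_j` acts on the `n_j` points through an embedding `e_j` of `Ω` into the `n_j`
points. -/
def Admissible (Ω : Type) [Fintype Ω] [DecidableEq Ω] (N₀ : ℕ) {Γ : Type} [Group Γ]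
    (X : Subgroup Γ) : Prop :=
  ∃ (r : ℕ) (n : Fin r → ℕ) (Q : ∀ j, Subgroup (Equiv.Perm (Fin (n j))))
    (U : Fin r → Subgroup (Equiv.Perm Ω)) (e : ∀ j, Ω ↪ Fin (n j)),
    (∀ j, N₀ ≤ n j ∧ alternatingGroup (Fin (n j)) ≤ Q j ∧ Allowed (U j)) ∧
    Over X (Subgroup.pi Set.univ
      fun j => ((U j).map (Equiv.Perm.viaEmbeddingHom (e j))).subgroupOf (Q j))

/-- For every finite set `Ω` there is an `N₀` with the following property. Let `G` be the Galois
group of `E/K`, let `N ≤ V ≤ M₀ ≤ M` be subgroups of `G`, `N` normal in `M₀` and `M₀` subnormal in
`M` (for example `M₀ = M`, or `M₀` normal in `M`). Suppose that `Admissible Ω N₀` holds for the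
subgroup `V / N` of `M₀ / N`: this is an extension of a product of alternating and symmetric groups
of degrees at least `N₀` by a solvable group, and `V / N` corresponds to a product of allowed groups
of permutations of `Ω`. Then for all points `s₀`, all functions with the formal properties of the
Artin L-functions of `E/K` near `s₀`, and all linear characters `ρ` of `M`, the order at `s₀` of the
L-function of `ρ` over `E^M` is at most the order of the L-function of `ρ|_V` over `E^V`; for
`ρ = 1`: the quotient `ζ_{E^V} / ζ_{E^M}` has no pole at `s₀`. The zeros may have any order.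

Example: for every finite group `R` there is an `N₀` such that, for all `n ≥ N₀` and all Galois
extensions `E/K` with group `A_n`, the quotient `ζ_L / ζ_K` has no pole at `s₀` when `L` is the fixed
field of the group `R` acting on `2 |R|` of the `n` points by two copies of its regular
representation; or of a Klein four group acting on four points; or of a cycle of length three; or of
a group of order two generated by a product of two disjoint transpositions. -/
theorem result (Ω : Type) [Fintype Ω] [DecidableEq Ω] :
    ∃ N₀ : ℕ, ∀ (G : Type) [Group G] [Finite G] (M M₀ N V : Subgroup G) (hM : M₀ ≤ M)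
      (hVM : V ≤ M₀) [(N.subgroupOf M₀).Normal], N ≤ V → (M₀.subgroupOf M).IsSubnormal →
      Admissible Ω N₀ ((V.subgroupOf M₀).map (QuotientGroup.mk' (N.subgroupOf M₀))) →
      ∀ (s₀ : ℂ) (A : ArtinData G s₀) (ρ : M →* ℂˣ),
      meromorphicOrderAt (A.Lin M ρ) s₀
        ≤ meromorphicOrderAt (A.Lin V (ρ.comp (Subgroup.inclusion (hVM.trans hM)))) s₀ := by
  obtain ⟨N₀, h⟩ := main Ω
  refine ⟨N₀, fun G _ _ M M₀ N V hM hVM _ h1 h2 h3 s₀ A ρ => ?_⟩
  obtain ⟨r, n, Q, U, e, h3, π, K, h4, h5, h6, h7, h8, h9⟩ := h3
  rw [Subgroup.map_map] at h9
  exact h G M M₀ N V hM hVM h1 h2 r n Q U e (fun j => ⟨(h3 j).1, (h3 j).2.1, (h3 j).2.2.thick⟩)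
    π h4 h5 _ K rfl h6 h7 h8 h9 s₀ A ρ

end Pool.Agent.Results.MP_9fc8a5_nt.ThickSubgroups
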